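import Pool.Agent.Y388.HL.Step

/-!
# Face numbers of all marked chain-order polytopes

The Hibi–Li inequality for marked posets in the general form: for every marked poset `(P, A, λ)`
and every partition of `P \ A` into a chain part `C` and an order part `O` (arbitrary sets, no
condition that `C` is an order ideal) let `O_{C,O}(λ)` be the marked chain-order polytope of Fang,
Fourier, Litza and Pegel; `C = ∅` gives the marked order polytope and `O = ∅` the marked chain
polytope. Then every face number `f_i` is monotone in `C`.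

The proof moves the elements one by one. For one element `p` the polytope with `p` in the order
part is `{M ≤ x_p ≤ U}` and the one with `p` in the chain part is `{0 ≤ x_p ≤ U - M}` over the same
base, where now both `M` (over the chains below `p`) and `-U` (over the chains above `p`) are
maxima of sums; the new point is the transversality of the two families, for which a direction is
cut at the level `U` and its upper part is kept.
-/

namespace Pool.Agent.Results.MP_8118e9_co.ChainOrderMonotone

open Set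

/-- The number of `i`-dimensional faces of `Q`. The nonempty faces of `Q` are the sets of the form
`{x ∈ Q | ∀ y ∈ Q, l y ≤ l x}` for a linear functional `l` (nonempty exposed faces, `Q` included,
which is the case `l = 0`); the dimension of a face is the dimension of its affine hull. -/
noncomputable def fNum {V : Type*} [AddCommGroup V] [Module ℝ V] [TopologicalSpace V]
    (Q : Set V) (i : ℕ) : ℕ∞ :=
  Set.encard {F : Set V | F.Nonempty ∧ IsExposed ℝ Q F ∧
    Module.finrank ℝ (vectorSpan ℝ F) = i}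

/-- The marked order polytope `O_{P,A}(λ)` in `ℝ^{P \ A}`. -/
def orderPolytope {P : Type*} [PartialOrder P] {A : Set P} (lam : A → ℝ) :
    Set ({p : P // p ∉ A} → ℝ) :=
  {x | (∀ p q : {p : P // p ∉ A}, p < q → x p ≤ x q) ∧
    (∀ (p : {p : P // p ∉ A}) (a : A), (p : P) < a → x p ≤ lam a) ∧
    (∀ (b : A) (q : {p : P // p ∉ A}), (b : P) < q → lam b ≤ x q)}

/-- The marked chain polytope `C_{P,A}(λ)` in `ℝ^{P \ A}`. A chain `b < pₙ < ⋯ < p₁ < a` is given
by its marked ends `a, b` and the nonempty finite totally ordered set `s` of its inner elements. -/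
def chainPolytope {P : Type*} [PartialOrder P] {A : Set P} (lam : A → ℝ) :
    Set ({p : P // p ∉ A} → ℝ) :=
  {x | (∀ p : {p : P // p ∉ A}, 0 ≤ x p) ∧
    (∀ (a b : A) (s : Finset {p : P // p ∉ A}), s.Nonempty →
      IsChain (· ≤ ·) (s : Set {p : P // p ∉ A}) → (∀ p ∈ s, (b : P) < p ∧ (p : P) < a) →
        ∑ p ∈ s, x p ≤ lam a - lam b)}

/-- The value `x_r` of an element `r` of `P`: the marking `λ_r` if `r` is marked. -/
noncomputable def value {P : Type*} {A : Set P} (lam : A → ℝ) (x : {p : P // p ∉ A} → ℝ)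
    (r : P) : ℝ :=
  open Classical in if h : r ∈ A then lam ⟨r, h⟩ else x ⟨r, h⟩

/-- The marked chain-order polytope with the chain part `C ⊆ P \ A` and the order part
`O = (P \ A) \ C`: the points `x` with `x_c ≥ 0` for `c ∈ C` and `x_{p₁} + ⋯ + x_{pₙ} ≤ x_a - x_b`
for all chains `b < pₙ < ⋯ < p₁ < a`, `n ≥ 0`, with `a, b ∈ A ∪ O` and `pᵢ ∈ C`, where the case
`n = 0`, `a, b ∈ A` is left out. -/
def chainOrderPolytope {P : Type*} [PartialOrder P] {A : Set P} (lam : A → ℝ)
    (C : Set {p : P // p ∉ A}) : Set ({p : P // p ∉ A} → ℝ) :=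
  {x | (∀ c ∈ C, 0 ≤ x c) ∧
    ∀ (b a : P) (s : Finset {p : P // p ∉ A}), b ∉ Subtype.val '' C → a ∉ Subtype.val '' C →
      (s : Set {p : P // p ∉ A}) ⊆ C → IsChain (· ≤ ·) (s : Set {p : P // p ∉ A}) → b < a →
      (∀ p ∈ s, b < (p : P) ∧ (p : P) < a) → ¬ (s = ∅ ∧ b ∈ A ∧ a ∈ A) →
        ∑ p ∈ s, x p ≤ value lam x a - value lam x b}

open Pool.Agent.W304.HL in
theorem mem_nodes_compl {P : Type*} {A : Set P} (C : Set {p : P // p ∉ A}) (r : P) :
    r ∈ nodes Cᶜ ↔ r ∉ Subtype.val '' C := by
  constructor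
  · rintro (h | ⟨q, h, rfl⟩) ⟨c, hc, hcr⟩
    · exact c.2 (hcr ▸ h)
    · exact h (Subtype.ext hcr ▸ hc)
  · intro h
    by_cases hr : r ∈ A
    · exact Or.inl hr
    · exact Or.inr ⟨⟨r, hr⟩, fun h' => h ⟨_, h', rfl⟩, rfl⟩

open Pool.Agent.W304.HL in
theorem chainOrderPolytope_eq {P : Type*} [PartialOrder P] {A : Set P} (lam : A → ℝ)
    (C : Set {p : P // p ∉ A}) : chainOrderPolytope lam C = ip lam Cᶜ := by
  ext x
  constructor
  · rintro ⟨h1, h2⟩
    refine ⟨fun b s a hv => ?_, fun c hc => h1 c (not_not.1 hc)⟩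
    have h3 := h2 b a s ((mem_nodes_compl C b).1 hv.hb) ((mem_nodes_compl C a).1 hv.ha)
      (by simpa using hv.hs) hv.chain hv.lt hv.bet (fun h => hv.ne h.1 h.2)
    have e1 : value lam x a = mu lam x a := rfl
    have e2 : value lam x b = mu lam x b := rfl
    rw [e1, e2] at h3
    linarith
  · rintro ⟨h1, h2⟩
    refine ⟨fun c hc => h2 c (fun h => h hc), fun b a s hb ha hs hch hlt hbet hne => ?_⟩
    have h3 := h1 b s a ⟨(mem_nodes_compl C b).2 hb, (mem_nodes_compl C a).2 ha,
      by simpa using hs, hch, hlt, hbet, fun h h' => hne ⟨h, h'⟩⟩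
    have e1 : value lam x a = mu lam x a := rfl
    have e2 : value lam x b = mu lam x b := rfl
    rw [e1, e2]
    linarith

theorem value_mem {P : Type*} {A : Set P} {lam : A → ℝ} {x : {p : P // p ∉ A} → ℝ} (a : A) :
    value lam x a = lam a := by simp [value, a.2]

theorem value_coe {P : Type*} {A : Set P} {lam : A → ℝ} {x : {p : P // p ∉ A} → ℝ}
    (q : {p : P // p ∉ A}) : value lam x q = x q := by simp [value, q.2]

/-- the order polytope is the case of an empty chain part -/
theorem chainOrder_empty {P : Type*} [PartialOrder P] {A : Set P} (lam : A → ℝ) :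
    chainOrderPolytope lam ∅ = orderPolytope lam := by
  ext x
  constructor
  · rintro ⟨-, h⟩
    refine ⟨fun p q hpq => ?_, fun p a hpa => ?_, fun b q hbq => ?_⟩
    · have := h p q ∅ (by simp) (by simp) (by simp) (by simp) hpq (by simp)
        (fun h => p.2 h.2.1)
      rw [Finset.sum_empty, value_coe, value_coe] at this
      linarith
    · have := h p a ∅ (by simp) (by simp) (by simp) (by simp) hpa (by simp)
        (fun h => p.2 h.2.1)
      rw [Finset.sum_empty, value_coe, value_mem] at this
      linarith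
    · have := h b q ∅ (by simp) (by simp) (by simp) (by simp) hbq (by simp)
        (fun h => q.2 h.2.2)
      rw [Finset.sum_empty, value_coe, value_mem] at this
      linarith
  · rintro ⟨h1, h2, h3⟩
    refine ⟨fun c hc => absurd hc (Set.notMem_empty c), fun b a s _ _ hs _ hlt _ hne => ?_⟩
    have hs' : s = ∅ := by
      rw [Finset.eq_empty_iff_forall_notMem]
      exact fun c hc => hs hc
    rw [hs', Finset.sum_empty]
    by_cases hb : b ∈ A
    · by_cases ha : a ∈ A
      · exact absurd ⟨hs', hb, ha⟩ hne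
      · have e1 : value lam x b = lam ⟨b, hb⟩ := value_mem ⟨b, hb⟩
        have e2 : value lam x a = x ⟨a, ha⟩ := value_coe ⟨a, ha⟩
        rw [e1, e2]
        have := h3 ⟨b, hb⟩ ⟨a, ha⟩ hlt
        linarith
    · have e1 : value lam x b = x ⟨b, hb⟩ := value_coe ⟨b, hb⟩
      by_cases ha : a ∈ A
      · have e2 : value lam x a = lam ⟨a, ha⟩ := value_mem ⟨a, ha⟩
        rw [e1, e2]
        have := h2 ⟨b, hb⟩ ⟨a, ha⟩ hlt
        linarith
      · have e2 : value lam x a = x ⟨a, ha⟩ := value_coe ⟨a, ha⟩
        rw [e1, e2]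
        have := h1 ⟨b, hb⟩ ⟨a, ha⟩ hlt
        linarith

/-- the chain polytope is the case of an empty order part -/
theorem chainOrder_univ {P : Type*} [PartialOrder P] {A : Set P} (lam : A → ℝ) :
    chainOrderPolytope lam Set.univ = chainPolytope lam := by
  have hout : ∀ r : P, r ∉ Subtype.val '' (Set.univ : Set {p : P // p ∉ A}) → r ∈ A := by
    intro r hr
    by_contra h
    exact hr ⟨⟨r, h⟩, Set.mem_univ _, rfl⟩
  have hin : ∀ r : A, (r : P) ∉ Subtype.val '' (Set.univ : Set {p : P // p ∉ A}) := by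
    rintro r ⟨q, -, hq⟩
    exact q.2 (hq ▸ r.2)
  ext x
  constructor
  · rintro ⟨h1, h2⟩
    refine ⟨fun p => h1 p (Set.mem_univ p), fun a b s hs hch hbet => ?_⟩
    obtain ⟨c, hc⟩ := hs
    have := h2 b a s (hin b) (hin a) (Set.subset_univ _) hch ((hbet c hc).1.trans (hbet c hc).2)
      hbet (fun h => absurd hc (by simp [h.1]))
    rwa [value_mem, value_mem] at this
  · rintro ⟨h1, h2⟩
    refine ⟨fun p _ => h1 p, fun b a s hb ha _ hch hlt hbet hne => ?_⟩
    have hb' := hout b hb
    have ha' := hout a ha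
    have hs : s.Nonempty := by
      rw [Finset.nonempty_iff_ne_empty]
      exact fun h => hne ⟨h, hb', ha'⟩
    have e1 : value lam x b = lam ⟨b, hb'⟩ := value_mem ⟨b, hb'⟩
    have e2 : value lam x a = lam ⟨a, ha'⟩ := value_mem ⟨a, ha'⟩
    rw [e1, e2]
    exact h2 ⟨a, ha'⟩ ⟨b, hb'⟩ s hs hch hbet

/-- **Monotonicity of the face numbers of all marked chain-order polytopes.** Let `(P, A, λ)` be a
finite marked poset.
(1) If `C ⊆ C'` are arbitrary subsets of `P \ A` then
`f_i (O_{C,O}(λ)) ≤ f_i (O_{C',O'}(λ))` for every `i`, and these numbers are finite.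
(2) The cases `C = ∅` and `C = P \ A` are the marked order and the marked chain polytope.
(3) In particular (Q1) `f_i` of the marked order polytope is at most `f_i` of the marked chain
polytope, for every `i`. -/
theorem result {P : Type*} [PartialOrder P] [Finite P] (A : Set P)
    (hA : ∀ p : P, IsMin p ∨ IsMax p → p ∈ A) (lam : A → ℝ) :
    (∀ C C' : Set {p : P // p ∉ A}, C ⊆ C' → ∀ i : ℕ,
      fNum (chainOrderPolytope lam C) i ≤ fNum (chainOrderPolytope lam C') i ∧
      fNum (chainOrderPolytope lam C') i ≠ ⊤) ∧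
    chainOrderPolytope lam ∅ = orderPolytope lam ∧
    chainOrderPolytope lam Set.univ = chainPolytope lam ∧
    ∀ i : ℕ, fNum (orderPolytope lam) i ≤ fNum (chainPolytope lam) i := by
  have key : ∀ C C' : Set {p : P // p ∉ A}, C ⊆ C' → ∀ i : ℕ,
      fNum (chainOrderPolytope lam C) i ≤ fNum (chainOrderPolytope lam C') i := by
    intro C C' hC i
    rw [chainOrderPolytope_eq, chainOrderPolytope_eq]
    exact Pool.Agent.Y388.HL.mono_ip lam (fun q h => hA q (Or.inl h)) (fun q h => hA q (Or.inr h))
      i _ Cᶜ rfl (Set.compl_subset_compl.2 hC)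
  refine ⟨fun C C' hC i => ⟨key C C' hC i, ?_⟩, chainOrder_empty lam, chainOrder_univ lam,
    fun i => ?_⟩
  · rw [chainOrderPolytope_eq]
    have := Fintype.ofFinite {p : P // p ∉ A}
    have h1 : Pool.Agent.W304.HL.ip lam C'ᶜ = Pool.Agent.W304.HL.poly
        (Pool.Agent.W304.HL.cDf C'ᶜ C'ᶜᶜ) (Pool.Agent.W304.HL.dDf lam C'ᶜ C'ᶜᶜ) := by
      ext x
      rw [Pool.Agent.W304.HL.mem_polyD]
      rfl
    rw [h1]
    exact (Pool.Agent.W304.HL.finite_faces _ _ i).encard_lt_top.ne
  · rw [← chainOrder_empty, ← chainOrder_univ]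
    exact key ∅ Set.univ (Set.empty_subset _) i

end Pool.Agent.Results.MP_8118e9_co.ChainOrderMonotone
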